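import Pool.Agent.H484Z.Box.Horse2

set_option autoImplicit false

namespace Pool.Agent.Results.MP_e6529f_an.ABasicSet

open Pool.Agent.H484Z.Box

/-- There is a smooth diffeomorphism of Euclidean five-space with a basic set whose lower box
dimension is strictly smaller than its upper box dimension. -/
theorem result : ∃ (f : Equiv.Perm (EuclideanSpace ℝ (Fin 5)))
    (Λ : Set (EuclideanSpace ℝ (Fin 5))),
    IsSmoothDiffeo f ∧ IsBasicSet f Λ ∧ lowerBox Λ < upperBox Λ :=
  basic_main

end Pool.Agent.Results.MP_e6529f_an.ABasicSet
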