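import Pool.Agent.H484Z.Box.Horse2

set_option autoImplicit false

namespace Pool.Agent.Results.MP_e6529f_an.BStableSlice

open Pool.Agent.H484Z.Box

/-- There is a smooth diffeomorphism of Euclidean five-space with a basic set none of whose
local stable slices has a box dimension. -/
theorem result : ∃ (f : Equiv.Perm (EuclideanSpace ℝ (Fin 5)))
    (Λ : Set (EuclideanSpace ℝ (Fin 5))),
    IsSmoothDiffeo f ∧ IsBasicSet f Λ ∧ ∀ x ∈ Λ, ∀ ε : ℝ, 0 < ε →
      lowerBox (Λ ∩ localStable f ε x) < upperBox (Λ ∩ localStable f ε x) :=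
  slice_main

end Pool.Agent.Results.MP_e6529f_an.BStableSlice
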